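import Pool.Agent.H31.CN.T5

/-!
# Forms for the ideal classes, and the L-functions of the class group characters
-/

set_option autoImplicit false

open MeasureTheory Set Filter NumberField
open scoped Real nonZeroDivisors

namespace Pool.Agent.H16.CN

open Pool.Agent.H31.CN

/-! ### Sums over a two to one map -/

/-- sums over the nonzero vectors and sums over their images under a map that identifies exactly
`v` and `-v` -/
theorem hasSum_two {ι : Type*} (P : ι → Prop) (b : ℤ × ℤ → ι) (h1 : ∀ v, v ≠ 0 → P (b v))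
    (h2 : ∀ J, P J → ∃ v, v ≠ 0 ∧ b v = J)
    (h3 : ∀ v v', v ≠ 0 → v' ≠ 0 → (b v = b v' ↔ v' = v ∨ v' = -v)) (f : ι → ℂ) (a : ℂ)
    (h : HasSum (fun v : ℤ × ℤ => if v = 0 then 0 else f (b v)) a) :
    HasSum (fun J : {J : ι // P J} => f J) (a / 2) := by
  classical
  have hV : HasSum (fun v : {v : ℤ × ℤ // v ≠ 0} => f (b v)) a := by
    have h4 := (hasSum_subtype_iff_indicator (f := fun v : ℤ × ℤ => f (b v))
      (s := {v : ℤ × ℤ | v ≠ 0}) (a := a)).mpr (by
        convert h using 1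
        ext v
        by_cases hv : v = 0
        · simp [hv]
        · simp [hv])
    exact h4
  set β : {v : ℤ × ℤ // v ≠ 0} → {J : ι // P J} := fun v => ⟨b v, h1 v v.2⟩ with hβ
  have hS := (Equiv.sigmaFiberEquiv β).hasSum_iff.mpr hV
  have hF : ∀ J : {J : ι // P J}, HasSum (fun v : {v : {v : ℤ × ℤ // v ≠ 0} // β v = J} =>
      f (b v.1.1)) (2 * f J) := by
    intro J
    obtain ⟨v0, hv0, hb0⟩ := h2 J.1 J.2
    have hn : -v0 ≠ 0 := neg_ne_zero.mpr hv0
    have hb1 : b (-v0) = J.1 := by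
      rw [← hb0]
      exact ((h3 v0 (-v0) hv0 hn).mpr (Or.inr rfl)).symm
    have hne : v0 ≠ -v0 := by
      intro h5
      apply hv0
      have h6 : v0 + v0 = 0 := by
        nth_rewrite 2 [h5]
        exact add_neg_cancel v0
      have h7 : v0.1 + v0.1 = 0 := congrArg Prod.fst h6
      have h8 : v0.2 + v0.2 = 0 := congrArg Prod.snd h6
      exact Prod.ext (by simp only [Prod.fst_zero]; omega) (by simp only [Prod.snd_zero]; omega)
    set m : Bool → {v : {v : ℤ × ℤ // v ≠ 0} // β v = J} := fun t =>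
      if t then ⟨⟨v0, hv0⟩, Subtype.ext hb0⟩ else ⟨⟨-v0, hn⟩, Subtype.ext hb1⟩ with hm
    have hbij : Function.Bijective m := by
      constructor
      · intro s t hst
        cases s <;> cases t
        · rfl
        · exfalso
          simp only [hm, Bool.false_eq_true, if_false, if_true] at hst
          exact hne (congrArg (fun x => x.1.1) hst).symm
        · exfalso
          simp only [hm, Bool.false_eq_true, if_false, if_true] at hst
          exact hne (congrArg (fun x => x.1.1) hst)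
        · rfl
      · rintro ⟨⟨v, hv⟩, hvJ⟩
        have h5 : b v = J.1 := congrArg Subtype.val hvJ
        rcases (h3 v0 v hv0 hv).mp (hb0.trans h5.symm) with h6 | h6
        · exact ⟨true, by subst h6; rfl⟩
        · exact ⟨false, by subst h6; rfl⟩
    have h6 := (Equiv.ofBijective m hbij).hasSum_iff (f := fun v : {v : {v : ℤ × ℤ // v ≠ 0} //
      β v = J} => f (b v.1.1)) (a := 2 * f J)
    rw [← h6]
    have h7 : (fun v : {v : {v : ℤ × ℤ // v ≠ 0} // β v = J} => f (b v.1.1)) ∘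
        (Equiv.ofBijective m hbij) = fun _ => f J := by
      ext t
      cases t
      · simp only [Function.comp_apply, Equiv.ofBijective_apply, hm, Bool.false_eq_true, if_false]
        rw [hb1]
      · simp only [Function.comp_apply, Equiv.ofBijective_apply, hm, if_true]
        rw [hb0]
    rw [h7]
    have h8 := hasSum_fintype (fun _ : Bool => f J)
    simpa [two_mul] using h8
  have hT := HasSum.sigma hS hF
  have := hT.div_const 2
  refine this.congr_fun ?_
  intro J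
  ring

/-- sums over all nonzero ideals from sums over the vectors of the forms of the classes -/
theorem hasSum_all {ι G : Type*} [Fintype G] (cl : ι → G) (b : G → ℤ × ℤ → ι)
    (h1 : ∀ c v, v ≠ 0 → cl (b c v) = c)
    (h2 : ∀ c J, cl J = c → ∃ v, v ≠ 0 ∧ b c v = J)
    (h3 : ∀ c v v', v ≠ 0 → v' ≠ 0 → (b c v = b c v' ↔ v' = v ∨ v' = -v)) (ψ : G → ℂ)
    (f : ι → ℂ) (a : G → ℂ)
    (h : ∀ c, HasSum (fun v : ℤ × ℤ => if v = 0 then 0 else f (b c v)) (a c)) :
    HasSum (fun J : ι => ψ (cl J) * f J) (∑ c, ψ c * (a c / 2)) := by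
  classical
  have h4 : ∀ c, HasSum (fun J : ι => if cl J = c then ψ c * f J else 0) (ψ c * (a c / 2)) := by
    intro c
    have h5 := hasSum_two (fun J => cl J = c) (b c) (h1 c) (h2 c) (h3 c) f (a c) (h c)
    have h6 := (h5.mul_left (ψ c))
    have h7 := (hasSum_subtype_iff_indicator (f := fun J : ι => ψ c * f J)
      (s := {J : ι | cl J = c}) (a := ψ c * (a c / 2))).mp h6
    refine h7.congr_fun ?_
    intro J
    by_cases hJ : cl J = c
    · simp [hJ]
    · simp [hJ]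
  have h8 := hasSum_sum (s := Finset.univ) (fun c _ => h4 c)
  refine h8.congr_fun ?_
  intro J
  simp

/-! ### Bounds for the cut-off function -/

theorem exp_six (x : ℝ) (hx : 0 < x) : Real.exp (-(6 * x)) ≤ 1 / x ^ 2 := by
  rw [Real.exp_neg, ← one_div]
  apply one_div_le_one_div_of_le (by positivity)
  have h1 := Real.add_one_le_exp (3 * x)
  have h2 : Real.exp (6 * x) = Real.exp (3 * x) ^ 2 := by
    rw [← Real.exp_nat_mul]
    congr 1
    push_cast
    ring
  rw [h2]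
  apply pow_le_pow_left₀ hx.le
  linarith

/-! ### The Hecke relation for sums over ideals -/

section Field

variable {K : Type} [Field K] [NumberField K]

/-- the summand -/
noncomputable def fJ (Δ : ℝ) (m : ℕ) (J : (Ideal (𝓞 K))⁰) : ℝ :=
  Vk ((Ideal.absNorm (J : Ideal (𝓞 K)) : ℝ) / (m * Real.sqrt Δ)) /
    Real.sqrt (Ideal.absNorm (J : Ideal (𝓞 K)) : ℝ)

theorem absNorm_pos (J : (Ideal (𝓞 K))⁰) : 0 < Ideal.absNorm (J : Ideal (𝓞 K)) := by
  rw [Nat.pos_iff_ne_zero, Ne, Ideal.absNorm_eq_zero_iff]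
  exact nonZeroDivisors.coe_ne_zero J

open Classical in
theorem hasSum_shift (Δ : ℝ) (ψ : ClassGroup (𝓞 K) →* ℂˣ) (P : (Ideal (𝓞 K))⁰)
    (h : HasSum (fun J : (Ideal (𝓞 K))⁰ => ((ψ (ClassGroup.mk0 J) : ℂˣ) : ℂ) *
      ((fJ Δ 1 J : ℝ) : ℂ)) 0) :
    HasSum (fun J : (Ideal (𝓞 K))⁰ => if (P : Ideal (𝓞 K)) ∣ (J : Ideal (𝓞 K)) then
      ((ψ (ClassGroup.mk0 J) : ℂˣ) : ℂ) *
        ((fJ Δ (Ideal.absNorm (P : Ideal (𝓞 K))) J : ℝ) : ℂ) else 0) 0 := by
  have hinj : Function.Injective (fun J : (Ideal (𝓞 K))⁰ => P * J) := by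
    intro J J' hJ
    have h1 : (P : Ideal (𝓞 K)) * J = P * J' := congrArg Subtype.val hJ
    exact Subtype.ext (mul_left_cancel₀ (nonZeroDivisors.coe_ne_zero P) h1)
  rw [← hinj.hasSum_iff]
  · have h2 := h.mul_left (((ψ (ClassGroup.mk0 P) : ℂˣ) : ℂ) *
      (((Real.sqrt (Ideal.absNorm (P : Ideal (𝓞 K)) : ℝ))⁻¹ : ℝ) : ℂ))
    rw [mul_zero] at h2
    refine h2.congr_fun ?_
    intro J
    have hP := absNorm_pos P
    have hJ := absNorm_pos J
    have hP' : (0 : ℝ) < (Ideal.absNorm (P : Ideal (𝓞 K)) : ℝ) := by exact_mod_cast hP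
    have h3 : (P : Ideal (𝓞 K)) ∣ ((P * J : (Ideal (𝓞 K))⁰) : Ideal (𝓞 K)) := ⟨J, rfl⟩
    simp only [Function.comp_apply, if_pos h3]
    rw [map_mul, map_mul]
    have h4 : fJ Δ (Ideal.absNorm (P : Ideal (𝓞 K))) (P * J) =
        (Real.sqrt (Ideal.absNorm (P : Ideal (𝓞 K)) : ℝ))⁻¹ * fJ Δ 1 J := by
      unfold fJ
      rw [Submonoid.coe_mul, map_mul]
      push_cast
      rw [Real.sqrt_mul hP'.le, mul_div_mul_left _ _ hP'.ne', one_mul]
      rw [div_mul_eq_div_div_swap]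
      ring
    rw [h4]
    push_cast
    ring
  · intro J hJ
    rw [if_neg]
    rintro ⟨c, hc⟩
    apply hJ
    have hc0 : c ≠ 0 := by
      rintro rfl
      rw [mul_zero] at hc
      exact nonZeroDivisors.coe_ne_zero J hc
    exact ⟨⟨c, mem_nonZeroDivisors_of_ne_zero hc0⟩, Subtype.ext hc.symm⟩

/-- the ideals of norm `m` -/
noncomputable def Tm (K : Type) [Field K] [NumberField K] (m : ℕ) : Finset (Ideal (𝓞 K)) :=
  (Ideal.finite_setOfPred_absNorm_eq (S := 𝓞 K) m).toFinset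

theorem mem_Tm {m : ℕ} {P : Ideal (𝓞 K)} : P ∈ Tm K m ↔ Ideal.absNorm P = m := by
  unfold Tm
  simp

open Classical in
/-- the number of divisors of norm `m` -/
noncomputable def cnt (m : ℕ) (J : (Ideal (𝓞 K))⁰) : ℕ :=
  ((Tm K m).filter (fun P => P ∣ (J : Ideal (𝓞 K)))).card

theorem card_cnt (m : ℕ) (J : (Ideal (𝓞 K))⁰) :
    Nat.card {P : Ideal (𝓞 K) // Ideal.absNorm P = m ∧ P ∣ (J : Ideal (𝓞 K))} = cnt m J := by
  classical
  unfold cnt
  apply Nat.subtype_card
  intro P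
  rw [Finset.mem_filter, mem_Tm]

theorem cnt_le (m : ℕ) (J : (Ideal (𝓞 K))⁰) : cnt m J ≤ (Tm K m).card := by
  classical
  exact Finset.card_filter_le _ _

theorem hasSum_hecke (Δ : ℝ) (ψ : ClassGroup (𝓞 K) →* ℂˣ)
    (h : HasSum (fun J : (Ideal (𝓞 K))⁰ => ((ψ (ClassGroup.mk0 J) : ℂˣ) : ℂ) *
      ((fJ Δ 1 J : ℝ) : ℂ)) 0) (m : ℕ) (hm : 1 ≤ m) :
    HasSum (fun J : (Ideal (𝓞 K))⁰ => ((ψ (ClassGroup.mk0 J) : ℂˣ) : ℂ) *
      ((fJ Δ m J * cnt m J : ℝ) : ℂ)) 0 := by
  classical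
  have h1 : ∀ P ∈ Tm K m, HasSum (fun J : (Ideal (𝓞 K))⁰ =>
      if (P : Ideal (𝓞 K)) ∣ (J : Ideal (𝓞 K)) then
      ((ψ (ClassGroup.mk0 J) : ℂˣ) : ℂ) * ((fJ Δ m J : ℝ) : ℂ) else 0) 0 := by
    intro P hP
    rw [mem_Tm] at hP
    have hP0 : P ≠ 0 := by
      rintro rfl
      have : Ideal.absNorm (0 : Ideal (𝓞 K)) = 0 := map_zero _
      omega
    have := hasSum_shift Δ ψ ⟨P, mem_nonZeroDivisors_of_ne_zero hP0⟩ h
    simp only [hP] at this
    exact this
  have h2 := hasSum_sum h1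
  rw [Finset.sum_const_zero] at h2
  refine h2.congr_fun ?_
  intro J
  rw [← Finset.sum_filter, Finset.sum_const, nsmul_eq_mul]
  unfold cnt
  push_cast
  ring

end Field

/-! ### The theorem -/

theorem Vk_bound {C : ℝ} (hC : 0 < C) (hV : ∀ x : ℝ, 0 < x → |Vk x| ≤ C * Real.exp (-(6 * x)))
    (Δ : ℝ) (hΔ : 0 < Δ) (m : ℕ) (hm : 1 ≤ m) (n : ℝ) (hn : 1 ≤ n) :
    |Vk (n / (m * Real.sqrt Δ)) / Real.sqrt n| ≤ C * (m ^ 2 * Δ) * (1 / n ^ 2) := by
  have hm' : (0 : ℝ) < m := by exact_mod_cast hm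
  have hs : 0 < Real.sqrt Δ := Real.sqrt_pos.mpr hΔ
  have hx : 0 < n / (m * Real.sqrt Δ) := by positivity
  have h1 := (hV _ hx).trans (mul_le_mul_of_nonneg_left (exp_six _ hx) hC.le)
  have h2 : 1 ≤ Real.sqrt n := Real.one_le_sqrt.mpr hn
  rw [abs_div, abs_of_pos (by linarith : 0 < Real.sqrt n)]
  have h3 : |Vk (n / (m * Real.sqrt Δ))| / Real.sqrt n ≤ |Vk (n / (m * Real.sqrt Δ))| :=
    div_le_self (abs_nonneg _) h2
  refine h3.trans (h1.trans (le_of_eq ?_))
  rw [div_pow, mul_pow, Real.sq_sqrt hΔ.le]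
  field_simp

theorem pf_CG (hOB1 : T_OB1) (hOB0 : T_OB0) (hOB2 : T_OB2) (hAUT : T_AUT) (hOB3 : T_OB3)
    (hOB4 : T_OB4) (hOB5 : T_OB5) (hEPS : T_EPS) (hQDV : T_QDV) (hVK : T_VK) : T_CG := by
  intro D K _ _ hD hD4 hsq hfin hdisc
  classical
  obtain ⟨σ⟩ : Nonempty (K →+* ℂ) := inferInstance
  have hD3 : 3 < D := by omega
  have hD0 : (0 : ℝ) < D := by exact_mod_cast (by omega : 0 < D)
  obtain ⟨C, hC, hV, -, -, -⟩ := hVK
  have hex : ∀ c : ClassGroup (𝓞 K), ∃ (I : (Ideal (𝓞 K))⁰) (α β : 𝓞 K) (Q : QF),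
      ClassGroup.mk0 I = c⁻¹ ∧ Q ∈ FD D ∧ OB K σ I α β Q ∧
        (c = 1 → Q = (1, 1, ((D : ℤ) + 1) / 4)) := by
    intro c
    by_cases hc : c = 1
    · obtain ⟨α, β, h⟩ := hOB0 D K σ hD3 hD4 hfin hdisc
      have h' : OB K σ ((1 : (Ideal (𝓞 K))⁰) : Ideal (𝓞 K)) α β (1, 1, ((D : ℤ) + 1) / 4) := by
        rw [Submonoid.coe_one, Ideal.one_eq_top]
        exact h
      refine ⟨1, α, β, _, ?_, ?_, h', fun _ => rfl⟩
      · rw [hc, map_one, inv_one]
      · refine ⟨one_pos, ?_⟩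
        unfold dsc
        simp only
        omega
    · obtain ⟨I, hI⟩ := ClassGroup.mk0_surjective (c⁻¹)
      obtain ⟨α, β, Q, hQ, h⟩ := hOB1 D K σ hD3 hD4 hfin hdisc I (nonZeroDivisors.coe_ne_zero I)
      exact ⟨I, α, β, Q, hI, hQ, h, fun h1 => absurd h1 hc⟩
  choose I α β Q hI hQ hOB hQ1 using hex
  have hb := fun c => hOB3 D K σ hD3 hD4 hfin hdisc (I c) (α c) (β c) (Q c) (hOB c)
  choose b hb1 hb2 hb3 hb4 using hb
  have hdsc : ∀ c, ((dsc (Q c) : ℤ) : ℝ) = D := fun c => by rw [(hQ c).2]; simp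
  have hQA : ∀ c, (0 : ℝ) < ((Q c).1 : ℝ) := fun c => by exact_mod_cast (hQ c).1
  have hF := fun c => hEPS ((Q c).1) ((Q c).2.1) D (hQA c) hD0
  choose F hF1 hF2 hF3 using hF
  have hqd : ∀ c v, qd ((Q c).1) ((Q c).2.1) D v = val (Q c) v := by
    intro c v
    have := hQDV.2.1 (Q c) v (hQ c).1
    rwa [hdsc c] at this
  -- the norms
  have hcl : ∀ c v, v ≠ 0 → ClassGroup.mk0 (b c v) = c := by
    intro c v hv
    rw [(hb2 c v hv).1, hI, inv_inv]
  have hnv : ∀ c v, v ≠ 0 → ((Ideal.absNorm ((b c v : (Ideal (𝓞 K))⁰) : Ideal (𝓞 K)) : ℕ) : ℝ) =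
      (val (Q c) v : ℝ) := by
    intro c v hv
    rw [← (hb2 c v hv).2]
    simp
  have hsur : ∀ c J, ClassGroup.mk0 J = c → ∃ v, v ≠ 0 ∧ b c v = J := by
    intro c J hJ
    apply hb3 c J
    rw [hJ, hI, inv_inv]
  have hval0 : ∀ c, val (Q c) 0 = 0 := by
    intro c
    unfold val
    simp
  have hval1 : ∀ c v, v ≠ 0 → (1 : ℝ) ≤ (val (Q c) v : ℝ) := by
    intro c v hv
    rw [← hnv c v hv]
    exact_mod_cast absNorm_pos (b c v)
  have hnu : ∀ c v m, v ≠ 0 → Squarefree m → nu m (Q c) v = cnt m (b c v) := by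
    intro c v m hv hm
    rw [← card_cnt, hOB5 K (b c v) m hm]
    unfold nu
    apply Finset.prod_congr rfl
    intro p hp
    exact hOB4 D K σ hD3 hD4 hfin hdisc (I c) (b c v) (α c) (β c) (Q c) v p (hOB c) hv
      (Nat.prime_of_mem_primeFactors hp) (hb1 c v hv)
  have hgen : ∀ (ψ : ClassGroup (𝓞 K) →* ℂˣ) (f : (Ideal (𝓞 K))⁰ → ℂ)
      (a : ClassGroup (𝓞 K) → ℂ),
      (∀ c, HasSum (fun v : ℤ × ℤ => if v = 0 then 0 else f (b c v)) (a c)) →
      HasSum (fun J : (Ideal (𝓞 K))⁰ => ((ψ (ClassGroup.mk0 J) : ℂˣ) : ℂ) * f J)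
        (∑ c, ((ψ c : ℂˣ) : ℂ) * (a c / 2)) := fun ψ f a h =>
    hasSum_all (fun J : (Ideal (𝓞 K))⁰ => ClassGroup.mk0 J) b hcl hsur hb4
      (fun c => ((ψ c : ℂˣ) : ℂ)) f a h
  -- summability
  have hsum2 : ∀ c, Summable (fun v : ℤ × ℤ => if v = 0 then 0 else
      1 / ((val (Q c) v : ℝ)) ^ 2) := by
    intro c
    have h1 := (hF2 c 2 (by norm_num)).summable.norm
    refine h1.congr ?_
    intro v
    by_cases hv : v = 0
    · simp [hv]
    · rw [if_neg hv, if_neg hv, hqd]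
      have h2 := hval1 c v hv
      have h3 := Complex.norm_cpow_eq_rpow_re_of_pos (by linarith : (0 : ℝ) < (val (Q c) v : ℝ))
        (-2 : ℂ)
      rw [h3]
      simp only [Complex.neg_re, Complex.re_ofNat]
      rw [Real.rpow_neg (by linarith)]
      simp
  have hsummable : ∀ c (m : ℕ), 1 ≤ m → Summable (fun v : ℤ × ℤ => if v = 0 then 0 else
      fJ D m (b c v) * cnt m (b c v)) := by
    intro c m hm
    refine Summable.of_norm_bounded ((hsum2 c).mul_left (C * (m ^ 2 * D) * (Tm K m).card)) ?_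
    intro v
    by_cases hv : v = 0
    · simp [hv]
    · rw [if_neg hv, if_neg hv, Real.norm_eq_abs, abs_mul]
      unfold fJ
      rw [hnv c v hv]
      have h1 := Vk_bound hC hV D hD0 m hm _ (hval1 c v hv)
      have h2 : |((cnt m (b c v) : ℕ) : ℝ)| ≤ ((Tm K m).card : ℝ) := by
        rw [abs_of_nonneg (by positivity)]
        exact_mod_cast cnt_le m (b c v)
      calc _ ≤ (C * (m ^ 2 * D) * (1 / (val (Q c) v : ℝ) ^ 2)) * ((Tm K m).card : ℝ) :=
            mul_le_mul h1 h2 (abs_nonneg _) (by positivity)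
        _ = _ := by ring
  refine ⟨Q, fun ψ s => ∑ c, ((ψ c : ℂˣ) : ℂ) * F c s, hQ, ?_, hQ1 1 rfl, ?_, ?_⟩
  · intro c c' g hg
    have h1 := hOB2 K σ (I c) (I c') _ _ _ _ _ _ g (hOB c) (hOB c') hg
    rw [hI, hI, inv_inj] at h1
    subst h1
    exact ⟨rfl, hAUT D (Q c) g hD hsq (hQ c) hg⟩
  · intro ψ
    constructor
    · apply DifferentiableOn.fun_sum
      intro c _
      exact (hF1 c).const_mul _
    · intro s hs
      have h1 := hgen ψ (fun J => (Ideal.absNorm (J : Ideal (𝓞 K)) : ℂ) ^ (-s))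
        (fun c => 2 * F c s) (by
          intro c
          refine (hF2 c s hs).congr_fun ?_
          intro v
          by_cases hv : v = 0
          · simp [hv]
          · rw [if_neg hv, if_neg hv, hqd, ← hnv c v hv]
            simp)
      convert h1 using 1
      apply Finset.sum_congr rfl
      intro c _
      ring
  · intro S cc hS ψ hL
    have hA : HasSum (fun J : (Ideal (𝓞 K))⁰ => ((ψ (ClassGroup.mk0 J) : ℂˣ) : ℂ) *
        ((fJ D 1 J : ℝ) : ℂ)) 0 := by
      have h1 := hgen ψ (fun J => ((fJ D 1 J : ℝ) : ℂ))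
        (fun c => ((zf ((Q c).1) ((Q c).2.1) D : ℝ) : ℂ)) (by
          intro c
          have h2 : Summable (fun v : ℤ × ℤ => if v = 0 then 0 else fJ D 1 (b c v)) := by
            refine Summable.of_norm_bounded ((hsum2 c).mul_left (C * ((1 : ℕ) ^ 2 * D))) ?_
            intro v
            by_cases hv : v = 0
            · simp [hv]
            · rw [if_neg hv, if_neg hv, Real.norm_eq_abs]
              unfold fJ
              rw [hnv c v hv]
              exact Vk_bound hC hV D hD0 1 le_rfl _ (hval1 c v hv)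
          have h3 : HasSum (fun v : ℤ × ℤ => if v = 0 then 0 else fJ D 1 (b c v))
              (zf ((Q c).1) ((Q c).2.1) D) := by
            have h4 := h2.hasSum
            convert h4 using 1
            unfold zf
            apply tsum_congr
            intro v
            rw [hqd]
            by_cases hv : v = 0
            · rw [if_pos hv, hv, hval0]
              simp
            · rw [if_neg hv]
              unfold fJ
              rw [hnv c v hv]
              simp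
          have h5 := (Complex.hasSum_ofReal).mpr h3
          refine h5.congr_fun ?_
          intro v
          by_cases hv : v = 0
          · simp [hv]
          · simp [hv])
      convert h1 using 1
      have h2 : ∑ c, ((ψ c : ℂˣ) : ℂ) * F c (1 / 2) = 0 := hL
      have h3 : ∑ c, ((ψ c : ℂˣ) : ℂ) * (((zf ((Q c).1) ((Q c).2.1) D : ℝ) : ℂ) / 2) =
          (∑ c, ((ψ c : ℂˣ) : ℂ) * F c (1 / 2)) / 2 := by
        rw [Finset.sum_div]
        apply Finset.sum_congr rfl
        intro c _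
        rw [hF3]
        ring
      rw [h3, h2, zero_div]
    have hB : HasSum (fun J : (Ideal (𝓞 K))⁰ => ((ψ (ClassGroup.mk0 J) : ℂˣ) : ℂ) *
        ((∑ m ∈ S, cc m * (fJ D m J * cnt m J) : ℝ) : ℂ)) 0 := by
      have h1 : ∀ m ∈ S, HasSum (fun J : (Ideal (𝓞 K))⁰ => (cc m : ℂ) *
          (((ψ (ClassGroup.mk0 J) : ℂˣ) : ℂ) * ((fJ D m J * cnt m J : ℝ) : ℂ))) 0 := by
        intro m hm
        have hm1 : 1 ≤ m := Nat.one_le_iff_ne_zero.mpr (hS m hm).ne_zero
        have := (hasSum_hecke D ψ hA m hm1).mul_left (cc m : ℂ)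
        rwa [mul_zero] at this
      have h2 := hasSum_sum h1
      rw [Finset.sum_const_zero] at h2
      refine h2.congr_fun ?_
      intro J
      push_cast
      rw [Finset.mul_sum]
      apply Finset.sum_congr rfl
      intro m _
      ring
    have hZ : HasSum (fun J : (Ideal (𝓞 K))⁰ => ((ψ (ClassGroup.mk0 J) : ℂˣ) : ℂ) *
        ((∑ m ∈ S, cc m * (fJ D m J * cnt m J) : ℝ) : ℂ))
        (∑ c, ((ψ c : ℂˣ) : ℂ) * (((Zc S cc (Q c) : ℝ) : ℂ) / 2)) := by
      apply hgen ψ (fun J => ((∑ m ∈ S, cc m * (fJ D m J * cnt m J) : ℝ) : ℂ))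
        (fun c => ((Zc S cc (Q c) : ℝ) : ℂ))
      intro c
      have h2 : Summable (fun v : ℤ × ℤ => ∑ m ∈ S, cc m * (if v = 0 then 0 else
          fJ D m (b c v) * cnt m (b c v))) := by
        apply summable_sum
        intro m hm
        have hm1 : 1 ≤ m := Nat.one_le_iff_ne_zero.mpr (hS m hm).ne_zero
        exact (hsummable c m hm1).mul_left (cc m)
      have h3 : HasSum (fun v : ℤ × ℤ => ∑ m ∈ S, cc m * (if v = 0 then 0 else
          fJ D m (b c v) * cnt m (b c v))) (Zc S cc (Q c)) := by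
        have h4 := h2.hasSum
        convert h4 using 1
        unfold Zc
        apply tsum_congr
        intro v
        by_cases hv : v = 0
        · rw [hv, hval0]
          simp
        · rw [Finset.sum_div]
          apply Finset.sum_congr rfl
          intro m hm
          rw [if_neg hv, hnu c v m hv (hS m hm), hdsc]
          unfold fJ
          rw [hnv c v hv]
          ring
      have h5 := (Complex.hasSum_ofReal).mpr h3
      refine h5.congr_fun ?_
      intro v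
      by_cases hv : v = 0
      · simp [hv]
      · simp [hv]
    have h1 := hZ.unique hB
    rw [finsum_eq_sum_of_fintype]
    have h2 : ∑ c, ((ψ c : ℂˣ) : ℂ) * (((Zc S cc (Q c) : ℝ) : ℂ) / 2) =
        (∑ c, ((ψ c : ℂˣ) : ℂ) * ((Zc S cc (Q c) : ℝ) : ℂ)) / 2 := by
      rw [Finset.sum_div]
      apply Finset.sum_congr rfl
      intro c _
      ring
    rw [h2] at h1
    have h3 : (2 : ℂ) ≠ 0 := two_ne_zero
    rcases div_eq_zero_iff.mp h1 with h4 | h4
    · exact h4
    · exact absurd h4 h3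

end Pool.Agent.H16.CN
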