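import Pool.Agent.H31.CN.T2

/-!
# Sums of smooth functions over arithmetic progressions
-/

set_option autoImplicit false

open MeasureTheory Set Filter
open scoped Real FourierTransform

namespace Pool.Agent.H16.CN

open Pool.Agent.H31.CN

/-- the rescaled complex function -/
noncomputable def gg (φ : ℝ → ℝ) (h β : ℝ) (x : ℝ) : ℂ := ((φ (h * x + β) : ℝ) : ℂ)

theorem gg_contDiff {k : ℕ} {φ : ℝ → ℝ} (hφ : ContDiff ℝ k φ) (h β : ℝ) :
    ContDiff ℝ k (gg φ h β) := by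
  unfold gg
  exact Complex.ofRealCLM.contDiff.comp (hφ.comp (by fun_prop))

theorem gg_deriv {φ : ℝ → ℝ} {h β a b : ℝ} (hh : 0 < h)
    (hs : ∀ x, x ∉ Icc a b → φ x = 0) :
    ∀ x, x ∉ Icc ((a - β) / h) ((b - β) / h) → gg φ h β x = 0 := by
  intro x hx
  unfold gg
  rw [hs _ (fun hx' => hx ⟨?_, ?_⟩)]
  · simp
  · rw [div_le_iff₀ hh]; linarith [hx'.1, mul_comm h x]
  · rw [le_div_iff₀ hh]; linarith [hx'.2, mul_comm h x]

theorem gg_tsupport {φ : ℝ → ℝ} {h β a b : ℝ} (hh : 0 < h)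
    (hs : ∀ x, x ∉ Icc a b → φ x = 0) :
    tsupport (gg φ h β) ⊆ Icc ((a - β) / h) ((b - β) / h) := by
  apply closure_minimal _ isClosed_Icc
  intro x hx
  by_contra hx'
  exact hx (gg_deriv hh hs x hx')

theorem gg_iter {k : ℕ} {φ : ℝ → ℝ} (hφ : ContDiff ℝ k φ) (h β : ℝ) (hh : 0 < h) (x : ℝ) :
    ‖iteratedDeriv k (gg φ h β) x‖ = h ^ k * |iteratedDeriv k φ (h * x + β)| := by
  have h1 : ‖iteratedDeriv k (gg φ h β) x‖ =
      ‖iteratedDeriv k (fun x => φ (h * x + β)) x‖ := by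
    rw [← norm_iteratedFDeriv_eq_norm_iteratedDeriv, ← norm_iteratedFDeriv_eq_norm_iteratedDeriv]
    exact Complex.ofRealLI.norm_iteratedFDeriv_comp_left
      ((hφ.comp (by fun_prop : ContDiff ℝ k (fun x : ℝ => h * x + β))).contDiffAt (x := x))
      (le_refl _)
  rw [h1]
  have h2 : ContDiff ℝ k (fun x => φ (x + β)) := hφ.comp (by fun_prop)
  have h3 := congrFun (iteratedDeriv_comp_const_mul h2 h) x
  rw [h3, iteratedDeriv_comp_add_const]
  simp [abs_mul, abs_of_pos hh]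

theorem gg_iter_zero {φ : ℝ → ℝ} {h β a b : ℝ} (k : ℕ) (hh : 0 < h)
    (hs : ∀ x, x ∉ Icc a b → φ x = 0) :
    ∀ x, x ∉ Icc ((a - β) / h) ((b - β) / h) → iteratedDeriv k (gg φ h β) x = 0 := by
  intro x hx
  have h1 : x ∉ Function.support (iteratedFDeriv ℝ k (gg φ h β)) := fun h1 =>
    hx (gg_tsupport hh hs (support_iteratedFDeriv_subset k h1))
  rw [Function.notMem_support] at h1
  rw [iteratedDeriv, h1]
  simp

theorem gg_compact {φ : ℝ → ℝ} {h β a b : ℝ} (hh : 0 < h)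
    (hs : ∀ x, x ∉ Icc a b → φ x = 0) : HasCompactSupport (gg φ h β) :=
  HasCompactSupport.intro isCompact_Icc (fun x hx => gg_deriv hh hs x hx)

theorem gg_int {φ : ℝ → ℝ} {k : ℕ} (hφ : ContDiff ℝ k φ) {h β a b : ℝ} (hh : 0 < h)
    (hs : ∀ x, x ∉ Icc a b → φ x = 0) (n : ℕ) (hn : n ≤ k) :
    Integrable (iteratedDeriv n (gg φ h β)) := by
  apply Continuous.integrable_of_hasCompactSupport
  · exact (gg_contDiff hφ h β).continuous_iteratedDeriv n (by exact_mod_cast hn)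
  · exact HasCompactSupport.intro isCompact_Icc (fun x hx => gg_iter_zero n hh hs x hx)

theorem gg_fourier {φ : ℝ → ℝ} {k : ℕ} (hφ : ContDiff ℝ k φ) {h β a b L : ℝ} (hh : 0 < h)
    (hab : a ≤ b)
    (hs : ∀ x, x ∉ Icc a b → φ x = 0) (hL : ∀ x, |iteratedDeriv k φ x| ≤ L)
    (ξ : ℝ) :
    (2 * π * |ξ|) ^ k * ‖𝓕 (gg φ h β) ξ‖ ≤ h ^ k * L * ((b - a) / h) := by
  have h1 := Real.fourier_iteratedDeriv (N := k) (n := k) (f := gg φ h β)
    (by exact_mod_cast gg_contDiff hφ h β)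
    (fun n hn => gg_int hφ hh hs n (by exact_mod_cast hn)) (le_refl _)
  have h2 : (2 * π * |ξ|) ^ k * ‖𝓕 (gg φ h β) ξ‖ = ‖𝓕 (iteratedDeriv k (gg φ h β)) ξ‖ := by
    rw [h1]
    simp [abs_of_pos Real.pi_pos]
  rw [h2]
  have h3 : ‖𝓕 (iteratedDeriv k (gg φ h β)) ξ‖ ≤ ∫ x, ‖iteratedDeriv k (gg φ h β) x‖ :=
    VectorFourier.norm_fourierIntegral_le_integral_norm _ _ _ _ _
  refine h3.trans ?_
  have h4 : ∫ x, ‖iteratedDeriv k (gg φ h β) x‖ =
      ∫ x in Icc ((a - β) / h) ((b - β) / h), ‖iteratedDeriv k (gg φ h β) x‖ := by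
    rw [setIntegral_eq_integral_of_forall_compl_eq_zero]
    intro x hx
    rw [gg_iter_zero k hh hs x hx, norm_zero]
  rw [h4]
  have hle : (a - β) / h ≤ (b - β) / h := by
    apply div_le_div_of_nonneg_right _ hh.le
    linarith
  have h5 : ‖∫ x in Icc ((a - β) / h) ((b - β) / h), ‖iteratedDeriv k (gg φ h β) x‖‖ ≤
      (h ^ k * L) * volume.real (Icc ((a - β) / h) ((b - β) / h)) := by
    apply norm_setIntegral_le_of_norm_le_const
    · exact measure_Icc_lt_top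
    · intro x _
      rw [norm_norm, gg_iter hφ h β hh]
      exact mul_le_mul_of_nonneg_left (hL _) (by positivity)
  rw [Real.volume_real_Icc_of_le hle] at h5
  refine (le_abs_self _).trans (h5.trans (le_of_eq ?_))
  field_simp
  ring

theorem pf_EMC : T_EMC := by
  intro k hk
  have hsum : Summable (fun n : ℤ => 1 / (2 * π * |(n : ℝ)|) ^ k) := by
    have h1 : Summable (fun n : ℤ => |(n : ℝ)| ^ (-(k : ℝ))) :=
      Real.summable_abs_int_rpow (by exact_mod_cast (by omega : 1 < k))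
    have h2 := h1.mul_left (1 / (2 * π) ^ k)
    refine h2.congr (fun n => ?_)
    rw [Real.rpow_neg (abs_nonneg _), Real.rpow_natCast, mul_pow (2 * π) |(n : ℝ)| k]
    rw [one_div, one_div, mul_inv]
  refine ⟨1 + ∑' n : ℤ, 1 / (2 * π * |(n : ℝ)|) ^ k, ?_, ?_⟩
  · have : 0 ≤ ∑' n : ℤ, 1 / (2 * π * |(n : ℝ)|) ^ k := tsum_nonneg (fun n => by positivity)
    linarith
  intro φ a b L h β hab hh hL hφ hs hb
  set g := gg φ h β with hg
  set M : ℝ := h ^ k * L * ((b - a) / h) with hM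
  have hM0 : 0 ≤ M := by
    have : 0 ≤ b - a := by linarith
    positivity
  have hF : ∀ n : ℤ, n ≠ 0 → ‖𝓕 g n‖ ≤ M * (1 / (2 * π * |(n : ℝ)|) ^ k) := by
    intro n hn
    have h1 := gg_fourier hφ (β := β) hh hab hs hb (n : ℝ)
    have h2 : 0 < (2 * π * |(n : ℝ)|) ^ k := by
      have : 0 < |(n : ℝ)| := abs_pos.mpr (by exact_mod_cast hn)
      positivity
    rw [mul_one_div, le_div_iff₀ h2]
    linarith
  have hk1 : (1 : ℝ) < k := by exact_mod_cast (by omega : 1 < k)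
  have hgc : Continuous g := (gg_contDiff hφ h β).continuous
  have hO : g =O[cocompact ℝ] fun x : ℝ => |x| ^ (-(2 : ℝ)) := by
    have h1 : g =ᶠ[cocompact ℝ] 0 := by
      have := hasCompactSupport_iff_eventuallyEq.mp (gg_compact (β := β) hh hs)
      rwa [coclosedCompact_eq_cocompact] at this
    exact (Asymptotics.isBigO_zero _ _).congr' h1.symm (EventuallyEq.refl _ _)
  have hS : Summable (fun n : ℤ => 𝓕 g n) := by
    have h1 : Summable (fun n : ℤ => M * (1 / (2 * π * |(n : ℝ)|) ^ k) + if n = 0 then ‖𝓕 g 0‖ else 0) := by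
      apply (hsum.mul_left M).add
      exact summable_of_ne_finset_zero (s := {0}) (fun n hn => by
        simp only [Finset.mem_singleton] at hn
        simp [hn])
    refine Summable.of_norm_bounded h1 (fun n => ?_)
    by_cases hn : n = 0
    · subst hn
      have : 0 ≤ M * (1 / (2 * π * |((0 : ℤ) : ℝ)|) ^ k) := by positivity
      simp only [Int.cast_zero, if_true]
      simp only [Int.cast_zero] at this
      linarith
    · rw [if_neg hn, add_zero]
      exact hF n hn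
  have hP := Real.tsum_eq_tsum_fourier_of_rpow_decay_of_summable hgc (by norm_num : (1 : ℝ) < 2) hO hS 0
  have hP2 : ∑' n : ℤ, g n = ∑' n : ℤ, 𝓕 g n := by
    calc ∑' n : ℤ, g n = ∑' n : ℤ, g (0 + n) := by simp
      _ = ∑' n : ℤ, 𝓕 g n * fourier n ((0 : ℝ) : UnitAddCircle) := hP
      _ = ∑' n : ℤ, 𝓕 g n := by
        apply tsum_congr
        intro n
        simp
  have h0 : 𝓕 g 0 = (((1 / h) * ∫ x, φ x : ℝ) : ℂ) := by
    rw [Real.fourier_eq]
    simp only [inner_zero_right, neg_zero, AddChar.map_zero_eq_one, one_smul]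
    rw [hg]
    unfold gg
    rw [integral_complex_ofReal]
    congr 1
    have h1 := Measure.integral_comp_mul_left (fun x => φ (x + β)) h
    rw [h1, integral_add_right_eq_self (fun x => φ x) β]
    rw [smul_eq_mul, abs_of_pos (inv_pos.mpr hh), one_div]
  have hcast : ((∑' j : ℤ, φ (h * j + β) - (1 / h) * ∫ x, φ x : ℝ) : ℂ) =
      ∑' n : ℤ, 𝓕 g n - 𝓕 g 0 := by
    rw [← hP2, h0]
    rw [Complex.ofReal_sub, Complex.ofReal_tsum]
    rfl
  have hsplit := hS.tsum_eq_add_tsum_ite (0 : ℤ)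
  simp only [Int.cast_zero] at hsplit
  rw [hsplit, add_sub_cancel_left] at hcast
  rw [← Real.norm_eq_abs, ← Complex.norm_real, hcast]
  have hfin : ∀ n : ℤ, ‖(if n = 0 then 0 else 𝓕 g (n : ℝ))‖ ≤ M * (1 / (2 * π * |(n : ℝ)|) ^ k) := by
    intro n
    by_cases hn : n = 0
    · rw [if_pos hn, norm_zero]
      positivity
    · rw [if_neg hn]
      exact hF n hn
  have hfin2 := tsum_of_norm_bounded ((hsum.mul_left M).hasSum) hfin
  refine hfin2.trans ?_
  rw [tsum_mul_left]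
  have hM2 : M = h ^ (k - 1) * (b - a) * L := by
    rw [hM]
    obtain ⟨m, rfl⟩ : ∃ m, k = m + 1 := ⟨k - 1, by omega⟩
    simp only [Nat.add_sub_cancel]
    field_simp
    ring
  have hT : 0 ≤ ∑' n : ℤ, 1 / (2 * π * |(n : ℝ)|) ^ k := tsum_nonneg (fun n => by positivity)
  calc M * ∑' n : ℤ, 1 / (2 * π * |(n : ℝ)|) ^ k ≤ M * (1 + ∑' n : ℤ, 1 / (2 * π * |(n : ℝ)|) ^ k) := by
        apply mul_le_mul_of_nonneg_left _ hM0
        linarith
    _ = _ := by rw [hM2]; ring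

end Pool.Agent.H16.CN
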